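import Mathlib

/-!
# Subfactor planar algebras as one star-algebra

`SubfactorPlanarAlgebra T` presents a (shaded, spherical) subfactor planar algebra with the
generating object `X` by the star-algebra `T` of all morphisms `X^m → X^n`, both shadings together,
in the limit of adding strings on the right.
-/

namespace Pool.Agent.ST5

/-- A subfactor planar algebra, presented through the unital complex star-algebra `T` of its boxes.

* `H m n` is the space of boxes with `m` strings at the bottom and `n` strings at the top, for both
  shadings of the leftmost region together (the generating object `X` and its dual alternate, so a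
  string needs no label). An element of `H m n` is identified with the element of `H (m+1) (n+1)`
  obtained by adding a vertical string on the right (`pad`); multiplication is vertical
  composition, `star` is the reflection.
* `z` is the empty box whose leftmost region is unshaded (so `1 - z` is the shaded empty box).
* `ρ` adds a vertical string on the left.
* `r` is the cup, `star r` the cap. -/
structure SubfactorPlanarAlgebra (T : Type*) [Ring T] [StarRing T] [Algebra ℂ T]
    [StarModule ℂ T] where
  /-- the loop parameter -/
  δ : ℝ
  /-- adding a vertical string on the left -/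
  ρ : T →⋆ₐ[ℂ] T
  /-- the spaces of boxes -/
  H : ℕ → ℕ → Submodule ℂ T
  /-- the unshaded empty box -/
  z : T
  /-- the cup -/
  r : T
  pad : ∀ m n x, x ∈ H m n → x ∈ H (m + 1) (n + 1)
  mul_mem : ∀ m n k x y, x ∈ H n k → y ∈ H m n → x * y ∈ H m k
  star_mem : ∀ m n x, x ∈ H m n → star x ∈ H n m
  rho_mem : ∀ m n x, x ∈ H m n → ρ x ∈ H (m + 1) (n + 1)
  finite : ∀ m n, FiniteDimensional ℂ (H m n)
  /-- the numbers of strings at the bottom and at the top have the same parity -/
  odd_zero : ∀ m n x, Odd (m + n) → x ∈ H m n → x = 0
  /-- the boxes without strings are the scalars, in each of the two shadings -/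
  empty_box : H 0 0 = Submodule.span ℂ {z, 1 - z}
  z_star : star z = z
  z_mul : z * z = z
  z_ne_zero : z ≠ 0
  z_ne_one : z ≠ 1
  rho_z : ρ z = 1 - z
  /-- boxes placed side by side may be moved past each other vertically -/
  interchange : ∀ m n p q x y, x ∈ H m n → y ∈ H p q → x * ρ^[m] y = ρ^[n] y * x
  r_mem : r ∈ H 0 2
  /-- a closed loop counts `δ` -/
  loop : star r * r = (δ : ℂ) • (1 : T)
  /-- straightening a bent string -/
  zigzag : star r * ρ r = 1
  /-- the sesquilinear forms `(x, y) ↦ star x * y` on the boxes without bottom strings are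
  positive definite, in each of the two shadings -/
  positive : ∀ n x, x ∈ H 0 n → ∃ a b : ℝ, 0 ≤ a ∧ 0 ≤ b ∧
    star x * x = (a : ℂ) • z + (b : ℂ) • (1 - z)
  definite : ∀ n x, x ∈ H 0 n → star x * x = 0 → x = 0
  /-- the rotation by a full turn is the identity (`x ↦ star r * ρ x * r` is the rotation by one
  string) -/
  rotation : ∀ n x, x ∈ H 0 n → (fun y => star r * ρ y * r)^[n] x = x
  /-- closing a box with one string on the left or on the right gives the same scalar -/
  spherical : ∀ x, x ∈ H 1 1 → star r * ρ x * r = ρ (star r * x * r)

namespace SubfactorPlanarAlgebra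

variable {T : Type*} [Ring T] [StarRing T] [Algebra ℂ T] [StarModule ℂ T]

/-- The Temperley-Lieb boxes: everything obtained from the two empty boxes, the cup and the cap by
adding strings on the right and on the left and by composition. -/
inductive IsTL (S : SubfactorPlanarAlgebra T) : ℕ → ℕ → T → Prop
  | one : IsTL S 0 0 1
  | shade : IsTL S 0 0 S.z
  | cup : IsTL S 0 2 S.r
  | cap : IsTL S 2 0 (star S.r)
  | right {m n : ℕ} {x : T} : IsTL S m n x → IsTL S (m + 1) (n + 1) x
  | left {m n : ℕ} {x : T} : IsTL S m n x → IsTL S (m + 1) (n + 1) (S.ρ x)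
  | mul {m n k : ℕ} {x y : T} : IsTL S n k x → IsTL S m n y → IsTL S m k (x * y)

/-- The span of the Temperley-Lieb boxes with `m` strings at the bottom and `n` at the top. -/
def TL (S : SubfactorPlanarAlgebra T) (m n : ℕ) : Submodule ℂ T :=
  Submodule.span ℂ {x | S.IsTL m n x}

/-- The supertransitivity is at least `N`: for `k ≤ N` all boxes with `2 k` boundary points are
Temperley-Lieb. -/
def Supertransitive (S : SubfactorPlanarAlgebra T) (N : ℕ) : Prop :=
  ∀ k ≤ N, S.H 0 (2 * k) = S.TL 0 (2 * k)

/-- The centre of the algebra `H k k`. -/
def centre (S : SubfactorPlanarAlgebra T) (k : ℕ) : Submodule ℂ T where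
  carrier := {x | x ∈ S.H k k ∧ ∀ y ∈ S.H k k, x * y = y * x}
  zero_mem' := ⟨Submodule.zero_mem _, fun y _ => by simp⟩
  add_mem' := by
    rintro a b ⟨ha, ha'⟩ ⟨hb, hb'⟩
    exact ⟨Submodule.add_mem _ ha hb, fun y hy => by rw [add_mul, mul_add, ha' y hy, hb' y hy]⟩
  smul_mem' := by
    rintro c a ⟨ha, ha'⟩
    exact ⟨Submodule.smul_mem _ c ha, fun y hy => by
      rw [smul_mul_assoc, mul_smul_comm, ha' y hy]⟩

/-- Finite depth: the numbers of simple summands of the algebras `H k k` (the numbers of vertices
of the two principal graphs that have at most distance `k` from the base point, and the parity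
of `k`) are bounded. -/
def FiniteDepth (S : SubfactorPlanarAlgebra T) : Prop :=
  ∃ B : ℕ, ∀ k, Module.finrank ℂ (S.centre k) ≤ B

end SubfactorPlanarAlgebra

end Pool.Agent.ST5
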